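import Pool.Agent.H96.PR2

set_option autoImplicit false
open Set Filter Topology Polynomial

namespace Pool.Agent.Results.MP_c19a8f_an.Yes

open Pool.Agent.H96.PR

theorem result (p q : ℤ[X]) (_hp0 : p.eval 0 = 0) (_hq0 : q.eval 0 = 0)
    (hp : 2 ≤ p.natDegree) (hq : 2 ≤ q.natDegree) :
    ∃ (X : Type) (_ : MetricSpace X) (_ : CompactSpace X) (_ : Nonempty X) (T S : X ≃ₜ X),
      (∀ x : X, Dense (range fun n : ℤ => (T ^ n) x)) ∧
      (∀ x : X, Dense (range fun n : ℤ => (S ^ n) x)) ∧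
      ∀ x : X, ¬ ∃ n : ℕ → ℤ, Tendsto (fun i => |n i|) atTop atTop ∧
        Tendsto (fun i => (T ^ p.eval (n i)) x) atTop (𝓝 x) ∧
        Tendsto (fun i => (S ^ q.eval (n i)) x) atTop (𝓝 x) := by
  obtain ⟨M, hM⟩ := exists_ad (P := (range fun n : ℤ => p.eval n) ∪ range fun n : ℤ => q.eval n)
    fun l => by
      obtain ⟨m, hm⟩ := free_poly' q hq l
      obtain ⟨m', hm'⟩ := free_poly' p hp m
      exact ⟨m', hm.union hm'⟩
  obtain ⟨x0, hx0⟩ := exists_pt hM
  have : Nonempty (XX M) := ⟨⟨x0, hx0⟩⟩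
  let e : ℕ ≃ ℤ := Equiv.intEquivNat.symm
  obtain ⟨φ, t0, h⟩ := H96.BF.graph
    (rich hM (fun j => p.eval (e j)) (fun j => Or.inl ⟨_, rfl⟩) (fin_poly p hp e))
    (rich hM (fun j => q.eval (e j)) (fun j => Or.inr ⟨_, rfl⟩) (fin_poly q hq e))
  have hS : ∀ (n : ℤ) (x : XX M), ((φ⁻¹ * TT 1 * φ⁻¹⁻¹ : XX M ≃ₜ XX M) ^ n : XX M ≃ₜ XX M) x =
      φ.symm (((TT 1) ^ n : XX M ≃ₜ XX M) (φ x)) :=
    fun n x => by rw [conj_zpow, inv_inv]; rfl
  refine ⟨XX M, TopologicalSpace.metrizableSpaceMetric _, inferInstance, inferInstance,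
    TT 1, φ⁻¹ * TT 1 * φ⁻¹⁻¹, TT_min hM, fun x => ?_, ?_⟩
  · have := φ.symm.surjective.denseRange.dense_image φ.symm.continuous (TT_min hM (φ x))
    rw [← range_comp] at this
    simp only [hS]; exact this
  · rintro x ⟨n, h0, h1, h2⟩
    have a1 := ((cont_letter 0).tendsto x).comp h1
    have a2 := (((cont_letter 0).comp φ.continuous).tendsto x).comp h2
    rw [nhds_discrete, tendsto_pure] at a1 a2
    obtain ⟨B, hB⟩ := ((finite_Iic t0).image fun j => |e j|).bddAbove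
    obtain ⟨i, b0, b1, b2⟩ := ((h0.eventually_gt_atTop B).and (a1.and a2)).exists
    refine h x (e.symm (n i)) (not_le.1 fun hi => ?_) ⟨?_, ?_⟩
    · have := hB ⟨_, hi, rfl⟩
      simp only [Equiv.apply_symm_apply] at this
      exact absurd b0 (not_lt.2 this)
    · simp only [Function.comp, TT_zpow] at b1
      simpa [TT, sh] using b1
    · simp only [Function.comp, hS, Homeomorph.apply_symm_apply, TT_zpow] at b2
      simpa [TT, sh] using b2

end Pool.Agent.Results.MP_c19a8f_an.Yes
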